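import Pool.Agent.H1.NV.D
import Pool.Agent.H1.LD.Lk

/-!
Second hand for NV/Va: a neighbourhood of the closed ellipse contains the larger confocal ellipses.
-/

set_option autoImplicit false

namespace NV1

open Complex Set Filter Topology MeasureTheory EW1 EX1 LD1
open scoped ComplexConjugate ContDiff Real

private theorem Va0_in {μ : ℂ} (hμ : ‖μ‖ < 1) {w : ℂ} (h1 : ‖μ‖ ≤ ‖w‖) (h2 : ‖w‖ ≤ 1) (hw : w ≠ 0) :
    zw μ w ∈ Kp 0 1 μ := by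
  have h0 := norm_nonneg μ
  have hwp : 0 < ‖w‖ := norm_pos_iff.2 hw
  have hq : 0 < 1 - ‖μ‖ ^ 2 := by nlinarith
  show ‖vv 0 1 μ (zw μ w)‖ ≤ 1
  unfold vv zw
  rw [sub_zero, one_mul, norm_div, Complex.norm_real, Real.norm_of_nonneg hq.le, div_le_one hq]
  have hcw : (w⁻¹ : ℂ) = conj w / ((‖w‖ ^ 2 : ℝ) : ℂ) := by
    rw [Complex.inv_def, Complex.normSq_eq_norm_sq, div_eq_mul_inv, Complex.ofReal_inv]
  have hn2 : ((‖w‖ ^ 2 : ℝ) : ℂ) ≠ 0 := by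
    exact_mod_cast (pow_pos hwp 2).ne'
  have e1 : w + μ * w⁻¹ - μ * conj (w + μ * w⁻¹) =
      ((1 - ‖μ‖ ^ 2 / ‖w‖ ^ 2 : ℝ) : ℂ) * w + μ * ((1 / ‖w‖ ^ 2 - 1 : ℝ) : ℂ) * conj w := by
    have e2 : conj (w⁻¹) = w / ((‖w‖ ^ 2 : ℝ) : ℂ) := by
      rw [hcw, map_div₀, Complex.conj_conj, Complex.conj_ofReal]
    rw [map_add, map_mul, e2, hcw]
    have e3 : ((‖μ‖ ^ 2 : ℝ) : ℂ) = μ * conj μ := by
      rw [Complex.mul_conj, Complex.normSq_eq_norm_sq]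
    have e4 : ((1 - ‖μ‖ ^ 2 / ‖w‖ ^ 2 : ℝ) : ℂ) = 1 - μ * conj μ / ((‖w‖ ^ 2 : ℝ) : ℂ) := by
      rw [← e3]; push_cast; ring
    have e5 : ((1 / ‖w‖ ^ 2 - 1 : ℝ) : ℂ) = 1 / ((‖w‖ ^ 2 : ℝ) : ℂ) - 1 := by push_cast; ring
    rw [e4, e5]
    field_simp
    ring
  rw [e1]
  have h3 : 0 ≤ 1 - ‖μ‖ ^ 2 / ‖w‖ ^ 2 := by
    rw [sub_nonneg, div_le_one (by positivity)]
    exact pow_le_pow_left₀ h0 h1 2
  have h4 : 0 ≤ 1 / ‖w‖ ^ 2 - 1 := by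
    rw [sub_nonneg, le_div_iff₀ (by positivity)]
    nlinarith
  have h5 := norm_add_le (((1 - ‖μ‖ ^ 2 / ‖w‖ ^ 2 : ℝ) : ℂ) * w) (μ * ((1 / ‖w‖ ^ 2 - 1 : ℝ) : ℂ) * conj w)
  rw [norm_mul, norm_mul, norm_mul, Complex.norm_conj, Complex.norm_real, Complex.norm_real,
    Real.norm_of_nonneg h3, Real.norm_of_nonneg h4] at h5
  refine h5.trans ?_
  have h6 : (1 - ‖μ‖ ^ 2 / ‖w‖ ^ 2) * ‖w‖ + ‖μ‖ * (1 / ‖w‖ ^ 2 - 1) * ‖w‖ =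
      (‖w‖ ^ 2 - ‖μ‖ ^ 2 + ‖μ‖ * (1 - ‖w‖ ^ 2)) / ‖w‖ := by
    field_simp
  rw [h6, div_le_iff₀ hwp]
  nlinarith [mul_nonneg (sub_nonneg.2 h1) (sub_nonneg.2 h2), mul_nonneg h0 (sub_nonneg.2 h2), mul_nonneg h0 (mul_nonneg (sub_nonneg.2 h1) (sub_nonneg.2 h2))]

private theorem Va0_out {μ : ℂ} (hμ : ‖μ‖ < 1) {N : Set ℂ} {δ : ℝ}
    (hδ : Metric.thickening δ (Kp 0 1 μ) ⊆ N) {s : ℝ} (hs : 2 * (s - 1) < δ) {w : ℂ} (h1 : 1 < ‖w‖)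
    (h2 : ‖w‖ < s) : zw μ w ∈ N := by
  have hwp : 0 < ‖w‖ := by linarith
  have hw : w ≠ 0 := norm_pos_iff.1 hwp
  have hn : ((‖w‖ : ℝ) : ℂ) ≠ 0 := by exact_mod_cast hwp.ne'
  set w' : ℂ := w / ((‖w‖ : ℝ) : ℂ) with hw'
  have hnw' : ‖w'‖ = 1 := by
    rw [hw', norm_div, Complex.norm_real, norm_norm, div_self hwp.ne']
  have hw'0 : w' ≠ 0 := fun h => by rw [h, norm_zero] at hnw'; exact zero_ne_one hnw'
  have hK := Va0_in hμ (w := w') (by rw [hnw']; exact hμ.le) hnw'.le hw'0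
  refine hδ (Metric.mem_thickening_iff.2 ⟨_, hK, ?_⟩)
  rw [dist_eq_norm]
  have e1 : zw μ w - zw μ w' = ((‖w‖ - 1 : ℝ) : ℂ) * w' + μ * ((1 / ‖w‖ - 1 : ℝ) : ℂ) * w'⁻¹ := by
    unfold zw
    have e2 : w = ((‖w‖ : ℝ) : ℂ) * w' := by rw [hw']; field_simp
    have e3 : w⁻¹ = ((‖w‖ : ℝ) : ℂ)⁻¹ * w'⁻¹ := by
      conv_lhs => rw [e2]
      rw [mul_inv]
    conv_lhs => rw [e3]
    conv_lhs => enter [1, 1]; rw [e2]
    push_cast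
    ring
  rw [e1]
  have h3 := norm_add_le (((‖w‖ - 1 : ℝ) : ℂ) * w') (μ * ((1 / ‖w‖ - 1 : ℝ) : ℂ) * w'⁻¹)
  have h4 : 1 / ‖w‖ ≤ 1 := by rw [div_le_one hwp]; exact h1.le
  have h5 : 1 - ‖w‖ ≤ 1 / ‖w‖ - 1 := by
    rw [le_sub_iff_add_le, le_div_iff₀ hwp]
    nlinarith
  rw [norm_mul, norm_mul, norm_mul, norm_inv, hnw', inv_one, mul_one, mul_one, Complex.norm_real,
    Complex.norm_real, Real.norm_of_nonneg (by linarith : (0 : ℝ) ≤ ‖w‖ - 1), Real.norm_eq_abs] at h3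
  have h6 : |1 / ‖w‖ - 1| ≤ ‖w‖ - 1 := abs_le.2 ⟨by linarith, by linarith⟩
  have h7 : ‖μ‖ * |1 / ‖w‖ - 1| ≤ 1 * (‖w‖ - 1) := by
    refine mul_le_mul hμ.le h6 (abs_nonneg _) zero_le_one
  linarith

/-- A neighbourhood of the closed ellipse contains larger confocal ellipses. -/
theorem Va0 {μ : ℂ} (hμ : ‖μ‖ < 1) {N : Set ℂ} (hN : IsOpen N) (hK : Kp 0 1 μ ⊆ N) :
    ∃ s : ℝ, 1 < s ∧ ∀ w : ℂ, ‖μ‖ < ‖w‖ * s → ‖w‖ < s → zw μ w ∈ N := by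
  have hKc : IsCompact (Kp 0 1 μ) := cDp_compact one_pos hμ 1
  obtain ⟨δ, hδ, hsub⟩ := hKc.exists_thickening_subset_open hN hK
  refine ⟨1 + δ / 4, by linarith, fun w h1 h2 => ?_⟩
  have hs : 2 * ((1 + δ / 4) - 1) < δ := by linarith
  have h0 := norm_nonneg μ
  have hwp : 0 < ‖w‖ := by
    by_contra h
    have h3 : ‖w‖ * (1 + δ / 4) ≤ 0 := mul_nonpos_of_nonpos_of_nonneg (not_lt.1 h) (by linarith)
    linarith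
  have hw : w ≠ 0 := norm_pos_iff.1 hwp
  rcases lt_or_ge 1 ‖w‖ with h3 | h3
  · exact Va0_out hμ hsub hs h3 h2
  · rcases le_or_gt ‖μ‖ ‖w‖ with h4 | h4
    · exact hK (Va0_in hμ h4 h3 hw)
    · have hμ0 : μ ≠ 0 := fun h => by rw [h, norm_zero] at h4; linarith
      have e1 : zw μ w = zw μ (μ * w⁻¹) := by
        unfold zw
        field_simp
        ring
      rw [e1]
      refine Va0_out hμ hsub hs ?_ ?_
      · rw [norm_mul, norm_inv, ← div_eq_mul_inv, lt_div_iff₀ hwp, one_mul]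
        exact h4
      · rw [norm_mul, norm_inv, ← div_eq_mul_inv, div_lt_iff₀ hwp]
        linarith

end NV1
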